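import Pool.Agent.Helper40.Ct.Goals

/-! Packet EV1a of MP_034a88_co: only lists in which every point occurs `r + 1` times count. -/

set_option autoImplicit false

open Finset

namespace Pool.Agent.Helper85.Ct

open Pool.Agent.Helper40.Ct

/-- EV1a. -/
theorem ev1a : EV1a := by
  classical
  intro d r α u g x hx hu hA π l hl hf s
  unfold fpi dgL at hf
  by_cases hlen : (l.map fun q => enc π (u q.1 q.2) q.2).length = (d + 1) * (r + 1)
  swap
  · rw [dif_neg hlen] at hf
    exact absurd rfl hf
  rw [dif_pos hlen] at hf
  have hlen' : l.length = (d + 1) * (r + 1) := by rw [← hlen, List.length_map]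
  unfold dg at hf
  have hc : ∃ c : Fin ((d + 1) * (r + 1)) → ℝ, (∀ s, 0 ≤ c s) ∧
      ∑ s, c s • (l.map fun q => enc π (u q.1 q.2) q.2).get (Fin.cast hlen.symm s) =
        bvec d r := by
    by_contra hc
    rw [if_neg hc] at hf
    exact hf rfl
  obtain ⟨c, hc0, hc1⟩ := hc
  -- move to the index set of `l`
  let ec : Fin l.length ≃ Fin ((d + 1) * (r + 1)) := finCongr hlen'
  have hc2 : ∑ t : Fin l.length, c (ec t) •
      enc π (u (l.get t).1 (l.get t).2) (l.get t).2 = bvec d r := by
    rw [← hc1, ← Equiv.sum_comp ec]
    refine sum_congr rfl fun t _ => ?_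
    congr 1
    rw [List.get_eq_getElem, List.get_eq_getElem, List.getElem_map]
    rfl
  choose S hS using fun t : Fin l.length => hl (l.get t) (List.get_mem l t)
  have hu' : ∀ t, u (l.get t).1 (l.get t).2 = g (x (S t)) := fun t => by
    rw [hS t, hu]
  simp only [hu'] at hc2
  -- the rows
  have hrow : ∀ (k : Fin (d + 1)) (j : Fin (r + 1)),
      ∑ t ∈ univ.filter (fun t : Fin l.length => part π (l.get t).2 = j),
        c (ec t) * (Fin.cons 1 (g (x (S t))) : Fin (d + 1) → ℝ) k = if k = 0 then 1 else 0 := by
    intro k j
    have h1 := congrFun hc2 (finProdFinEquiv (k, j))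
    rw [Finset.sum_apply] at h1
    simp only [Pi.smul_apply, enc, bvec, Equiv.symm_apply_apply, smul_eq_mul] at h1
    rw [← h1, sum_filter]
    refine sum_congr rfl fun t _ => ?_
    by_cases h2 : part π (l.get t).2 = j
    · rw [if_pos h2, if_pos h2.symm]
    · rw [if_neg h2, if_neg (fun h3 => h2 h3.symm), mul_zero]
  have hsurj : Function.Surjective fun t : Fin l.length => (S t, part π (l.get t).2) := by
    rintro ⟨s, j⟩
    by_contra hn
    have hn' : ∀ t, part π (l.get t).2 = j → S t ≠ s := fun t h1 h2 => hn ⟨t, by
      simp only [h1, h2]⟩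
    refine hA (univ.erase s) (fun h => ?_) ?_
    · have := mem_univ s
      rw [← h] at this
      exact notMem_erase s univ this
    · have h1 : ∑ t ∈ univ.filter (fun t : Fin l.length => part π (l.get t).2 = j),
          c (ec t) = 1 := by
        have := hrow 0 j
        simpa using this
      have h2 : ∑ t ∈ univ.filter (fun t : Fin l.length => part π (l.get t).2 = j),
          c (ec t) • g (x (S t)) = 0 := by
        funext k
        have := hrow k.succ j
        rw [if_neg (Fin.succ_ne_zero k)] at this
        rw [Finset.sum_apply]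
        simpa using this
      rw [← h2]
      refine (convex_convexHull ℝ _).sum_mem (fun t _ => hc0 _) h1 fun t ht => ?_
      rw [mem_filter] at ht
      refine subset_convexHull ℝ _ ⟨S t, ?_, rfl⟩
      rw [mem_coe, mem_erase]
      exact ⟨hn' t ht.2, mem_univ _⟩
  have hbij : Function.Bijective fun t : Fin l.length => (S t, part π (l.get t).2) := by
    rw [Fintype.bijective_iff_surjective_and_card]
    refine ⟨hsurj, ?_⟩
    rw [Fintype.card_fin, Fintype.card_prod, Fintype.card_fin, Fintype.card_fin, hlen']
  let e := Equiv.ofBijective _ hbij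
  have he : ∀ t, e t = (S t, part π (l.get t).2) := fun t => rfl
  have hset : {t : Fin l.length | (l.get t).1 = x s} =
      (fun j : Fin (r + 1) => e.symm (s, j)) '' Set.univ := by
    ext t
    constructor
    · intro ht
      change (l.get t).1 = x s at ht
      have h1 : S t = s := hx (by rw [← hS t, ht])
      refine ⟨part π (l.get t).2, trivial, ?_⟩
      change e.symm (s, part π (l.get t).2) = t
      rw [Equiv.symm_apply_eq, he, h1]
    · rintro ⟨j, _, rfl⟩
      change (l.get (e.symm (s, j))).1 = x s
      have h1 := he (e.symm (s, j))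
      rw [Equiv.apply_symm_apply] at h1
      rw [hS, ← (Prod.mk.inj h1).1]
  rw [hset, Set.ncard_image_of_injective _ fun j j' h => ?_, Set.ncard_univ, Nat.card_fin]
  exact (Prod.mk.inj (e.symm.injective h)).2

end Pool.Agent.Helper85.Ct
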